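import Mathlib

namespace Pool.Agent.Results.MP_db83b6_pr.Star

open MeasureTheory ProbabilityTheory Finset Module

/-- The pairs `i < j`. -/
abbrev E (n : ℕ) := {e : Fin n × Fin n // e.1 < e.2}

/-- Tail correlation functions on `n` points. -/
def TCF (n : ℕ) : Set (E n → ℝ) := {x | ∃ (Ω : Type) (_ : MeasurableSpace Ω) (P : Measure Ω)
  (A : Fin n → Set Ω), IsProbabilityMeasure P ∧ (∀ i, MeasurableSet (A i)) ∧
    (∀ i, P.real (A i) = 1 / n) ∧ ∀ e : E n, x e = n * P.real (A e.1.1 ∩ A e.1.2)}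

/-- `a y ≤ b` defines a facet of `C`. -/
def Facet {n : ℕ} (C : Set (E n → ℝ)) (a : (E n → ℝ) →ₗ[ℝ] ℝ) (b : ℝ) : Prop :=
  (∀ y ∈ C, a y ≤ b) ∧
    finrank ℝ (vectorSpan ℝ {y ∈ C | a y = b}) + 1 = finrank ℝ (vectorSpan ℝ C)

/-- The polytope cut out by the facets through `v₀ = 0` or `v₁ = 1`. -/
def Spindle (n : ℕ) : Set (E n → ℝ) :=
  {x | ∀ a b, Facet (TCF n) a b → a 0 = b ∨ a 1 = b → a x ≤ b}

/-- The matrix `X(x)`. -/
def X {n : ℕ} (x : E n → ℝ) : Matrix (Fin n) (Fin n) ℝ := fun i j =>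
  if h : i < j then x ⟨(i, j), h⟩ else if h : j < i then x ⟨(j, i), h⟩ else 1

lemma mem {n : ℕ} [NeZero n] (A : Fin n → Finset (Fin n × Fin n)) (h : ∀ i, #(A i) = n)
    (x : E n → ℝ) (hx : ∀ e : E n, x e = #(A e.1.1 ∩ A e.1.2) / n) : x ∈ TCF n := by
  have n0 : (n : ℝ) ≠ 0 := NeZero.ne _
  have e : ∀ s : Finset (Fin n × Fin n), (uniformOn Set.univ).real (s : Set (Fin n × Fin n)) =
      #s / (n * n) := fun s => by simp [Measure.real, uniformOn_univ]
  refine ⟨Fin n × Fin n, inferInstance, uniformOn Set.univ, fun i => A i, inferInstance,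
    fun i => (A i).measurableSet, fun i => ?_, fun a => ?_⟩
  · rw [e, h]; field_simp
  · rw [← coe_inter, e, hx]; field_simp

theorem result (n : ℕ) (hn : 6 ≤ n) : ¬ Spindle n ⊆ {x | (X x).PosSemidef} := fun h => by
  obtain ⟨m, rfl⟩ : ∃ m, n = m + 1 := ⟨n - 1, by omega⟩
  let s : E (m + 1) → ℝ := fun e => if e.1.1 = 0 then 1 / 2 else 0
  let R : Fin (m + 1) → Finset (Fin (m + 1) × Fin (m + 1)) := fun i => {i} ×ˢ univ
  have n0 : (0 : ℝ) < (m + 1 : ℕ) := by positivity
  have hR : ∀ i, #(R i) = m + 1 := fun i => by simp [R]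
  have h0 : (2 / (m + 1 : ℕ) : ℝ) • s ∈ TCF (m + 1) := by
    refine mem (fun i => insert (0, i) ((R i).erase (i, i))) (fun i => ?_) _ ?_
    · rw [card_insert_of_notMem (by simp [R, eq_comm]), card_erase_of_mem (by simp [R]), hR]; rfl
    · rintro ⟨⟨i, j⟩, hij⟩
      have hj : j ≠ 0 := (Fin.pos_iff_ne_zero.1 (lt_of_le_of_lt (Fin.zero_le _) hij))
      have hi : i ≠ j := ne_of_lt hij
      by_cases h : i = 0
      · rw [show insert (0, i) ((R i).erase (i, i)) ∩ insert (0, j) ((R j).erase (j, j)) = {(0, j)} by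
          ext ⟨a, b⟩; simp [R]; grind]
        simp [s, h]; field_simp
      · rw [show insert (0, i) ((R i).erase (i, i)) ∩ insert (0, j) ((R j).erase (j, j)) = ∅ by
          ext ⟨a, b⟩; simp [R]; grind]
        simp [s, h]
  have h1 : 1 + (2 / (m + 1 : ℕ) : ℝ) • (s - 1) ∈ TCF (m + 1) := by
    refine mem (fun i => insert (i, i) ((R 0).erase (0, i))) (fun i => ?_) _ ?_
    · rw [card_insert_of_notMem (by simp [R, eq_comm]), card_erase_of_mem (by simp [R]), hR]; rfl
    · rintro ⟨⟨i, j⟩, hij⟩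
      have hj : j ≠ 0 := (Fin.pos_iff_ne_zero.1 (lt_of_le_of_lt (Fin.zero_le _) hij))
      have hi : i ≠ j := ne_of_lt hij
      by_cases h : i = 0
      · rw [show insert (i, i) ((R 0).erase (0, i)) ∩ insert (j, j) ((R 0).erase (0, j)) =
          (R 0).erase (0, j) by ext ⟨a, b⟩; simp [R]; grind, cast_card_erase_of_mem (by simp [R]), hR]
        simp [s, h]; field_simp; ring
      · rw [show insert (i, i) ((R 0).erase (0, i)) ∩ insert (j, j) ((R 0).erase (0, j)) =
          ((R 0).erase (0, j)).erase (0, i) by ext ⟨a, b⟩; simp [R]; grind,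
          cast_card_erase_of_mem (by simp [R, hi]), cast_card_erase_of_mem (by simp [R]), hR]
        simp [s, h]; field_simp; ring
  have p2 : (0 : ℝ) < 2 / (m + 1 : ℕ) := by positivity
  have hs : s ∈ Spindle (m + 1) := fun a b f e => by
    have a0 := f.1 _ h0
    have a1 := f.1 _ h1
    simp only [map_add, map_smul, map_sub, smul_eq_mul, map_zero] at a0 a1 e
    rcases e with e | e <;> nlinarith
  have := (h hs).dotProduct_mulVec_nonneg fun i => if i = 0 then -2 else 1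
  have e : X s = fun i j => if i = j then 1 else if i = 0 ∨ j = 0 then 1 / 2 else 0 := by
    ext i j
    rcases lt_trichotomy i j with h | h | h
    · simp [X, s, h, h.ne, (Fin.pos_iff_ne_zero.1 (lt_of_le_of_lt (Fin.zero_le _) h))]
    · simp [X, h]
    · simp [X, s, h, h.ne', h.not_gt, (Fin.pos_iff_ne_zero.1 (lt_of_le_of_lt (Fin.zero_le _) h))]
  simp [e, dotProduct, Matrix.mulVec, Fin.sum_univ_succ, Fin.succ_ne_zero,
    (Fin.succ_ne_zero _).symm] at this
  have : (5 : ℝ) ≤ m := by exact_mod_cast Nat.le_of_succ_le_succ hn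
  linarith

end Pool.Agent.Results.MP_db83b6_pr.Star
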